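import Pool.Agent.Work.MP_426531_ag.Curve

set_option autoImplicit false

open Polynomial
open scoped Polynomial.Bivariate

namespace Pool.Agent.Work.MP_426531_ag

theorem algebraMap_coord_mem (a : ℂ) (z : (curve a).CoordinateRing) :
    algebraMap (curve a).CoordinateRing (KE a) z ∈ IntermediateField.adjoin ℂ {KEx a, KEy a} := by
  have hx : KEx a ∈ IntermediateField.adjoin ℂ {KEx a, KEy a} :=
    IntermediateField.subset_adjoin _ _ (by simp)
  have hy : KEy a ∈ IntermediateField.adjoin ℂ {KEx a, KEy a} :=
    IntermediateField.subset_adjoin _ _ (by simp)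
  have hC : ∀ c : ℂ[X], algebraMap (curve a).CoordinateRing (KE a)
      (WeierstrassCurve.Affine.CoordinateRing.mk (curve a) (C c))
        ∈ IntermediateField.adjoin ℂ {KEx a, KEy a} := by
    intro c
    induction c using Polynomial.induction_on' with
    | add p q hp hq => rw [map_add, map_add, map_add]; exact add_mem hp hq
    | monomial k r =>
      rw [← C_mul_X_pow_eq_monomial, map_mul, map_mul, map_mul, map_pow, map_pow, map_pow]
      refine mul_mem ?_ (pow_mem hx k)
      have h1 : algebraMap (curve a).CoordinateRing (KE a)
          (WeierstrassCurve.Affine.CoordinateRing.mk (curve a) (C (C r))) = algebraMap ℂ (KE a) r := rfl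
      rw [h1]
      exact IntermediateField.algebraMap_mem _ r
  obtain ⟨p, rfl⟩ := AdjoinRoot.mk_surjective z
  change algebraMap (curve a).CoordinateRing (KE a)
    (WeierstrassCurve.Affine.CoordinateRing.mk (curve a) p) ∈ _
  induction p using Polynomial.induction_on' with
  | add p q hp hq => rw [map_add, map_add]; exact add_mem hp hq
  | monomial k r =>
    rw [← C_mul_X_pow_eq_monomial, map_mul, map_mul, map_pow, map_pow]
    exact mul_mem (hC r) (pow_mem hy k)

theorem adjoin_KE (a : ℂ) : IntermediateField.adjoin ℂ {KEx a, KEy a} = ⊤ := by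
  rw [eq_top_iff]
  intro z _
  obtain ⟨p, q, hq, rfl⟩ := IsFractionRing.div_surjective (A := (curve a).CoordinateRing) z
  exact div_mem (algebraMap_coord_mem a p) (algebraMap_coord_mem a q)

end Pool.Agent.Work.MP_426531_ag
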