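import Mathlib

set_option autoImplicit false

namespace Pool.Agent.Work.MP_426531_ag

section

variable {F : Type*} [Field F] {A : Type*} [Ring A] [Algebra F A]

/-- In a finite dimensional algebra without zero divisors every commuting set lies in a commutative
subalgebra which is a field and is maximal among all commutative subrings. -/
theorem exists_maximal_subfield [Nontrivial A] [Module.Finite F A]
    (hdom : ∀ z w : A, z ≠ 0 → w ≠ 0 → z * w ≠ 0) (s : Set A)
    (hs : ∀ a ∈ s, ∀ b ∈ s, a * b = b * a) :
    ∃ M : Subalgebra F A, IsField M ∧ s ⊆ M ∧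
      ∀ S : Subring A, (∀ a ∈ S, ∀ b ∈ S, a * b = b * a) → M.toSubring ≤ S → S = M.toSubring := by
  classical
  let Q : Subalgebra F A → Prop := fun M => (∀ a ∈ M, ∀ b ∈ M, a * b = b * a) ∧ s ⊆ M
  have hQ : ∃ M, Q M := by
    refine ⟨Algebra.adjoin F s, ?_, Algebra.subset_adjoin⟩
    intro a ha b hb
    have h1 : Algebra.adjoin F s ≤ Subalgebra.centralizer F s := by
      rw [Algebra.adjoin_le_iff]
      intro x hx
      rw [SetLike.mem_coe, Subalgebra.mem_centralizer_iff]
      intro y hy
      exact hs y hy x hx
    have h2 : Algebra.adjoin F s ≤ Subalgebra.centralizer F (Algebra.adjoin F s : Set A) := by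
      rw [Algebra.adjoin_le_iff]
      intro x hx
      rw [SetLike.mem_coe, Subalgebra.mem_centralizer_iff]
      intro y hy
      have := (Subalgebra.mem_centralizer_iff F).mp (h1 hy) x hx
      exact this.symm
    have := (Subalgebra.mem_centralizer_iff F).mp (h2 hb) a ha
    exact this
  let d : ℕ → Prop := fun k => ∃ M, Q M ∧ Module.finrank F M = k
  have hd : ∃ k, d k := by
    obtain ⟨M, hM⟩ := hQ
    exact ⟨_, M, hM, rfl⟩
  have hbd : ∀ k, d k → k ≤ Module.finrank F A := by
    rintro k ⟨M, _, rfl⟩
    exact Submodule.finrank_le (Subalgebra.toSubmodule M)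
  obtain ⟨k, ⟨M, hM, hMk⟩, hmax⟩ : ∃ k, d k ∧ ∀ l, d l → l ≤ k := by
    refine ⟨Nat.findGreatest d (Module.finrank F A), ?_, ?_⟩
    · obtain ⟨k, hk⟩ := hd
      exact Nat.findGreatest_spec (hbd k hk) hk
    · intro l hl
      exact Nat.le_findGreatest (hbd l hl) hl
  refine ⟨M, ?_, hM.2, ?_⟩
  · refine ⟨⟨0, 1, ?_⟩, ?_, ?_⟩
    · intro h
      exact zero_ne_one (congrArg (fun y : M => (y : A)) h)
    · intro a b
      exact Subtype.ext (hM.1 a a.2 b b.2)
    · intro a ha
      have hinj : Function.Injective (LinearMap.mulLeft F a) := by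
        rw [injective_iff_map_eq_zero]
        intro w hw
        by_contra hne
        have h1 : (a : A) * (w : A) = 0 := by
          have := congrArg (fun y : M => (y : A)) hw
          exact this
        exact hdom a w (fun h => ha (Subtype.ext h)) (fun h => hne (Subtype.ext h)) h1
      obtain ⟨b, hb⟩ := LinearMap.injective_iff_surjective.mp hinj 1
      exact ⟨b, hb⟩
  · intro S hS hMS
    let S' : Subalgebra F A :=
      { S with
        algebraMap_mem' := fun r => hMS (M.algebraMap_mem r) }
    have hMS' : M ≤ S' := fun x hx => hMS hx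
    have hQS : Q S' := ⟨hS, hM.2.trans hMS'⟩
    have h1 : Module.finrank F S' ≤ Module.finrank F M := by
      rw [hMk]
      exact hmax _ ⟨S', hQS, rfl⟩
    have h2 : Subalgebra.toSubmodule M = Subalgebra.toSubmodule S' :=
      Submodule.eq_of_le_of_finrank_le hMS' h1
    have h3 : M = S' := Subalgebra.toSubmodule_injective h2
    ext x
    rw [h3]

end

end Pool.Agent.Work.MP_426531_ag
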