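import Pool.Agent.Work.MP_426531_ag.Hedge.Domain

set_option autoImplicit false

open scoped nonZeroDivisors

namespace Pool.Agent.Work.MP_426531_ag

/-- The algebra structure of `ℂ(s)(t)` over `ℂ(u, v)`. -/
noncomputable def algFE {n : ℕ} (hn0 : n ≠ 0) : Algebra FF EE := (embF hn0).toRingHom.toAlgebra

theorem exists_repData (n : ℕ) (hn0 : n ≠ 0) (ζ : ℂ) (hζ : IsPrimitiveRoot ζ n) :
    letI := algFE hn0
    ∃ D : RepData uF vF n ζ EE,
      ∀ P : MvPolynomial (Fin 2) ℂ, P.eval₂ (cE FF EE) ![D.s, D.t] = 0 → P = 0 := by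
  letI := algFE hn0
  have hζ0 : ζ ≠ 0 := hζ.ne_zero hn0
  let c : K1 := algebraMap ℂ K1 ζ
  have hc : c ≠ 0 := by
    intro h
    exact hζ0 ((map_eq_zero_iff _ (algebraMap ℂ K1).injective).mp h)
  have hcn : c ^ n = 1 := by
    change (algebraMap ℂ K1 ζ) ^ n = 1
    rw [← map_pow, hζ.pow_eq_one, map_one]
  have halg : ∀ f : FF, algebraMap FF EE f = embF hn0 f := fun f => rfl
  have hcc : ∀ b : ℂ, algebraMap FF EE (algebraMap ℂ FF b) = algebraMap K1 EE (algebraMap ℂ K1 b) := by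
    intro b
    rw [halg, AlgHom.commutes, IsScalarTower.algebraMap_apply ℂ K1 EE]
  let D : RepData uF vF n ζ EE :=
    { s := sE
      t := tE
      σ := { (sigmaE hc).toRingHom with
             commutes' := fun f => sigmaE_embF hc hn0 hcn f }
      hσs := sigmaE_sE hc
      hσt := by rw [hcc]; exact sigmaE_tE hc
      hs := by rw [halg, embF_u]
      ht := by rw [halg, embF_v]
      hσn := fun f => sigmaE_iterate hc hcn f }
  refine ⟨D, fun P hP => ?_⟩
  have h1 : cE FF EE = algebraMap ℂ EE := by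
    ext b
    exact (hcc b).trans (IsScalarTower.algebraMap_apply ℂ K1 EE b).symm
  have h2 : MvPolynomial.aeval ![sE, tE] P = 0 := by
    rw [MvPolynomial.aeval_def, ← h1]; exact hP
  have h3 := algInd (n := 1) one_ne_zero
  rw [pow_one, pow_one] at h3
  exact (injective_iff_map_eq_zero _).mp h3 P h2

section

variable {n : ℕ} {ζ : ℂ}

theorem smul_mem_span (hn0 : n ≠ 0) (P : MvPolynomial (Fin 2) ℂ) (w : AA uF vF n ζ)
    (hw : w ∈ Submodule.span ℂ (Set.range (mon uF vF n ζ))) :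
    (algebraMap (MvPolynomial (Fin 2) ℂ) FF P) • w
      ∈ Submodule.span ℂ (Set.range (mon uF vF n ζ)) := by
  have hmon : ∀ p, mon uF vF n ζ p ∈ Submodule.span ℂ (Set.range (mon uF vF n ζ)) :=
    fun p => Submodule.subset_span ⟨p, rfl⟩
  have hcs : ∀ (f : FF) (c : ℂ) (w : AA uF vF n ζ), f • c • w = c • f • w := by
    intro f c w
    rw [← algebraMap_smul FF c w, ← algebraMap_smul FF c (f • w), smul_smul, smul_smul, mul_comm]
  have hu : ∀ w ∈ Submodule.span ℂ (Set.range (mon uF vF n ζ)),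
      uF • w ∈ Submodule.span ℂ (Set.range (mon uF vF n ζ)) := by
    intro w hw
    induction hw using Submodule.span_induction with
    | mem w hw =>
      obtain ⟨p, rfl⟩ := hw
      have h1 : uF • mon uF vF n ζ p = mon uF vF n ζ (p.1 + n, p.2) := by
        unfold mon
        rw [Algebra.smul_def, ← gx_pow, ← mul_assoc, ← pow_add, add_comm]
      rw [h1]
      exact hmon _
    | zero => simp
    | add a b _ _ ha hb => rw [smul_add]; exact Submodule.add_mem _ ha hb
    | smul c a _ ha => rw [hcs]; exact Submodule.smul_mem _ _ ha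
  have hv : ∀ w ∈ Submodule.span ℂ (Set.range (mon uF vF n ζ)),
      vF • w ∈ Submodule.span ℂ (Set.range (mon uF vF n ζ)) := by
    intro w hw
    induction hw using Submodule.span_induction with
    | mem w hw =>
      obtain ⟨p, rfl⟩ := hw
      have h1 : vF • mon uF vF n ζ p = mon uF vF n ζ (p.1, p.2 + n) := by
        unfold mon
        rw [Algebra.smul_def, Algebra.commutes, ← gy_pow, mul_assoc, ← pow_add]
      rw [h1]
      exact hmon _
    | zero => simp
    | add a b _ _ ha hb => rw [smul_add]; exact Submodule.add_mem _ ha hb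
    | smul c a _ ha => rw [hcs]; exact Submodule.smul_mem _ _ ha
  induction P using MvPolynomial.induction_on generalizing w with
  | C a =>
    have h1 : algebraMap (MvPolynomial (Fin 2) ℂ) FF (MvPolynomial.C a) = algebraMap ℂ FF a := rfl
    rw [h1, algebraMap_smul]
    exact Submodule.smul_mem _ _ hw
  | add p q hp hq =>
    rw [map_add, add_smul]
    exact Submodule.add_mem _ (hp w hw) (hq w hw)
  | mul_X p i hp =>
    rw [map_mul, mul_smul]
    fin_cases i
    · exact hp _ (hu w hw)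
    · exact hp _ (hv w hw)

theorem exists_smul_mem (hn0 : n ≠ 0) (hζ0 : ζ ≠ 0) (z : AA uF vF n ζ) :
    ∃ b : FF, b ≠ 0 ∧ b • z ∈ Submodule.span ℂ (Set.range (mon uF vF n ζ)) := by
  classical
  have hz : z ∈ Submodule.span FF (Set.range fun p : Fin n × Fin n =>
      (em (ux hn0 uF_ne_zero) (uy hn0 vF_ne_zero) ((p.1 : ℕ) : ℤ) ((p.2 : ℕ) : ℤ) :
        AA uF vF n ζ)) := by
    rw [span_em' hn0 uF_ne_zero vF_ne_zero hζ0]; trivial
  rw [Submodule.mem_span_range_iff_exists_fun] at hz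
  obtain ⟨c, rfl⟩ := hz
  obtain ⟨b, hb⟩ := IsLocalization.exist_integer_multiples (nonZeroDivisors (MvPolynomial (Fin 2) ℂ))
    Finset.univ c
  refine ⟨algebraMap (MvPolynomial (Fin 2) ℂ) FF b, ?_, ?_⟩
  · rw [Ne, map_eq_zero_iff _ (IsFractionRing.injective (MvPolynomial (Fin 2) ℂ) FF)]
    exact nonZeroDivisors.ne_zero b.2
  · rw [Finset.smul_sum]
    refine Submodule.sum_mem _ fun p _ => ?_
    obtain ⟨P, hP⟩ := hb p (Finset.mem_univ p)
    have h1 : (algebraMap (MvPolynomial (Fin 2) ℂ) FF b) * c p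
        = algebraMap (MvPolynomial (Fin 2) ℂ) FF P := by
      rw [hP, Algebra.smul_def]
    rw [smul_smul, h1]
    have h2 := mon_eq_em (u := uF) (v := vF) (n := n) (ζ := ζ) hn0 uF_ne_zero vF_ne_zero
      ((p.1 : ℕ), (p.2 : ℕ))
    simp only at h2
    rw [← h2]
    exact smul_mem_span hn0 P _ (Submodule.subset_span ⟨_, rfl⟩)

/-- The cyclic algebra has no zero divisors. -/
theorem AA_mul_ne_zero (hn0 : n ≠ 0) (hζ : IsPrimitiveRoot ζ n) (z w : AA uF vF n ζ)
    (hz : z ≠ 0) (hw : w ≠ 0) : z * w ≠ 0 := by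
  letI := algFE hn0
  have hζ0 : ζ ≠ 0 := hζ.ne_zero hn0
  obtain ⟨D, hD⟩ := exists_repData n hn0 ζ hζ
  obtain ⟨b, hb, hbz⟩ := exists_smul_mem hn0 hζ0 z
  obtain ⟨d, hd, hdw⟩ := exists_smul_mem hn0 hζ0 w
  intro h0
  apply mul_ne_zero_of_mem_span D hn0 uF_ne_zero vF_ne_zero hζ0 hD (b • z) (d • w) hbz hdw
    (smul_ne_zero hb hz) (smul_ne_zero hd hw)
  rw [smul_mul_smul_comm, h0, smul_zero]

theorem AA_nontrivial (hn0 : n ≠ 0) (hζ : IsPrimitiveRoot ζ n) : Nontrivial (AA uF vF n ζ) := by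
  letI := algFE hn0
  obtain ⟨D, _⟩ := exists_repData n hn0 ζ hζ
  exact D.nontrivial

/-- The monomials form a basis. -/
theorem exists_basis (hn0 : n ≠ 0) (hζ : IsPrimitiveRoot ζ n) :
    ∃ B : Module.Basis (Fin n × Fin n) FF (AA uF vF n ζ),
      ∀ p, B p = em (ux hn0 uF_ne_zero) (uy hn0 vF_ne_zero) ((p.1 : ℕ) : ℤ) ((p.2 : ℕ) : ℤ) := by
  have hζ0 : ζ ≠ 0 := hζ.ne_zero hn0
  haveI := AA_nontrivial hn0 hζ
  have h1 := uy_ux (u := uF) (v := vF) (ζ := ζ) hn0 uF_ne_zero vF_ne_zero hζ0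
  rw [← algebraMap_smul FF] at h1
  have hli := em_linearIndependent (ux hn0 uF_ne_zero : (AA uF vF n ζ)ˣ) (uy hn0 vF_ne_zero) uF hn0 hζ
    h1 uF_not_const
  have hsp := span_em' (u := uF) (v := vF) (n := n) (ζ := ζ) hn0 uF_ne_zero vF_ne_zero hζ0
  exact ⟨Module.Basis.mk hli hsp.ge, fun p => Module.Basis.mk_apply hli _ p⟩

theorem AA_finrank (hn0 : n ≠ 0) (hζ : IsPrimitiveRoot ζ n) :
    Module.finrank FF (AA uF vF n ζ) = n ^ 2 := by
  obtain ⟨B, _⟩ := exists_basis hn0 hζ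
  rw [Module.finrank_eq_card_basis B, Fintype.card_prod, Fintype.card_fin, pow_two]

/-- The centre of the cyclic algebra is `F`. -/
theorem AA_center (hn0 : n ≠ 0) (hζ : IsPrimitiveRoot ζ n) :
    Subalgebra.center FF (AA uF vF n ζ) = ⊥ := by
  classical
  have hζ0 : ζ ≠ 0 := hζ.ne_zero hn0
  obtain ⟨B, hB⟩ := exists_basis hn0 hζ
  have hmul := em_mul (ux hn0 uF_ne_zero : (AA uF vF n ζ)ˣ) (uy hn0 vF_ne_zero) ζ⁻¹
    (inv_ne_zero hζ0) (uy_ux (u := uF) (v := vF) (ζ := ζ) hn0 uF_ne_zero vF_ne_zero hζ0)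
  set q : FF := algebraMap ℂ FF ζ⁻¹ with hq
  have hqprim : IsPrimitiveRoot q n := (hζ.inv).map_of_injective (algebraMap ℂ FF).injective
  have hq0 : q ≠ 0 := hqprim.ne_zero hn0
  have hmulq : ∀ i j l m : ℤ, em (ux hn0 uF_ne_zero : (AA uF vF n ζ)ˣ) (uy hn0 vF_ne_zero) i j
      * em (ux hn0 uF_ne_zero) (uy hn0 vF_ne_zero) l m
      = (q ^ (j * l)) • em (ux hn0 uF_ne_zero) (uy hn0 vF_ne_zero) (i + l) (j + m) := by
    intro i j l m
    rw [hmul, ← algebraMap_smul FF, map_zpow₀]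
  rw [eq_bot_iff]
  intro z hz
  rw [Subalgebra.mem_center_iff] at hz
  have hx : ∀ p : Fin n × Fin n, B.repr z p ≠ 0 → q ^ (p.2 : ℕ) = 1 := by
    intro p hp
    have h1 := hz (em (ux hn0 uF_ne_zero) (uy hn0 vF_ne_zero) 1 0)
    -- conjugate by x
    let T : AA uF vF n ζ →ₗ[FF] AA uF vF n ζ :=
      (LinearMap.mulLeft FF (em (ux hn0 uF_ne_zero) (uy hn0 vF_ne_zero) (-1) 0))
        ∘ₗ (LinearMap.mulRight FF (em (ux hn0 uF_ne_zero) (uy hn0 vF_ne_zero) 1 0))
    have hT1 : T z = z := by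
      simp only [T, LinearMap.comp_apply, LinearMap.mulLeft_apply, LinearMap.mulRight_apply]
      rw [← h1, ← mul_assoc, hmulq]
      simp [em]
    have hT2 : ∀ p : Fin n × Fin n, T (B p) = q ^ (p.2 : ℕ) • B p := by
      intro p
      simp only [T, LinearMap.comp_apply, LinearMap.mulLeft_apply, LinearMap.mulRight_apply, hB,
        hmulq, mul_smul_comm, smul_smul]
      have e1 : ∀ m : ℤ, (0 : ℤ) + (m + 0) = m := by intro m; ring
      have e2 : ∀ m : ℤ, (-1 : ℤ) + (m + 1) = m := by intro m; ring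
      simp only [e1, e2, zero_mul, zpow_zero, mul_one, zpow_natCast]
    have hT3 : B.repr (T z) p = q ^ (p.2 : ℕ) * B.repr z p := by
      conv_lhs => rw [← B.sum_repr z]
      rw [map_sum, map_sum, Finsupp.finsetSum_apply]
      simp only [map_smul, hT2, Finsupp.smul_apply, smul_eq_mul, B.repr_self,
        Finsupp.single_apply, mul_ite, mul_one, mul_zero]
      rw [Finset.sum_ite_eq' Finset.univ p]
      simp [mul_comm]
    rw [hT1] at hT3
    have h5 : (q ^ (p.2 : ℕ) - 1) * B.repr z p = 0 := by rw [sub_mul, ← hT3]; ring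
    rcases mul_eq_zero.mp h5 with h6 | h6
    · exact sub_eq_zero.mp h6
    · exact absurd h6 hp
  have hy : ∀ p : Fin n × Fin n, B.repr z p ≠ 0 → q ^ (p.1 : ℕ) = 1 := by
    intro p hp
    have h1 := hz (em (ux hn0 uF_ne_zero) (uy hn0 vF_ne_zero) 0 1)
    let T : AA uF vF n ζ →ₗ[FF] AA uF vF n ζ :=
      (LinearMap.mulLeft FF (em (ux hn0 uF_ne_zero) (uy hn0 vF_ne_zero) 0 1))
        ∘ₗ (LinearMap.mulRight FF (em (ux hn0 uF_ne_zero) (uy hn0 vF_ne_zero) 0 (-1)))
    have hT1 : T z = z := by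
      simp only [T, LinearMap.comp_apply, LinearMap.mulLeft_apply, LinearMap.mulRight_apply]
      rw [← mul_assoc, h1, mul_assoc, hmulq]
      simp [em]
    have hT2 : ∀ p : Fin n × Fin n, T (B p) = q ^ (p.1 : ℕ) • B p := by
      intro p
      simp only [T, LinearMap.comp_apply, LinearMap.mulLeft_apply, LinearMap.mulRight_apply, hB,
        hmulq, mul_smul_comm, smul_smul]
      have e1 : ∀ m : ℤ, (0 : ℤ) + (m + 0) = m := by intro m; ring
      have e2 : ∀ m : ℤ, (1 : ℤ) + (m + -1) = m := by intro m; ring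
      simp only [e2, mul_zero, zpow_zero, one_mul, add_zero, zero_add, zpow_natCast]
    have hT3 : B.repr (T z) p = q ^ (p.1 : ℕ) * B.repr z p := by
      conv_lhs => rw [← B.sum_repr z]
      rw [map_sum, map_sum, Finsupp.finsetSum_apply]
      simp only [map_smul, hT2, Finsupp.smul_apply, smul_eq_mul, B.repr_self,
        Finsupp.single_apply, mul_ite, mul_one, mul_zero]
      rw [Finset.sum_ite_eq' Finset.univ p]
      simp [mul_comm]
    rw [hT1] at hT3
    have h5 : (q ^ (p.1 : ℕ) - 1) * B.repr z p = 0 := by rw [sub_mul, ← hT3]; ring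
    rcases mul_eq_zero.mp h5 with h6 | h6
    · exact sub_eq_zero.mp h6
    · exact absurd h6 hp
  have hn : 0 < n := Nat.pos_of_ne_zero hn0
  let o : Fin n × Fin n := (⟨0, hn⟩, ⟨0, hn⟩)
  have hzero : ∀ p : Fin n × Fin n, p ≠ o → B.repr z p = 0 := by
    intro p hp
    by_contra hne
    apply hp
    have h1 := hx p hne
    have h2 := hy p hne
    have h3 : (p.2 : ℕ) = 0 := by
      refine hqprim.pow_inj p.2.2 hn ?_
      rw [h1, pow_zero]
    have h4 : (p.1 : ℕ) = 0 := by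
      refine hqprim.pow_inj p.1.2 hn ?_
      rw [h2, pow_zero]
    exact Prod.ext (Fin.ext h4) (Fin.ext h3)
  have hfin : z = algebraMap FF _ (B.repr z o) := by
    conv_lhs => rw [← B.sum_repr z]
    rw [Finset.sum_eq_single o]
    · rw [hB, Algebra.algebraMap_eq_smul_one]
      simp [em, o]
    · intro p _ hp
      rw [hzero p hp, zero_smul]
    · intro h; exact absurd (Finset.mem_univ _) h
  rw [Algebra.mem_bot]
  exact ⟨_, hfin.symm⟩

/-- The cyclic algebra is a division algebra. -/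
theorem AA_division (hn0 : n ≠ 0) (hζ : IsPrimitiveRoot ζ n) (z : AA uF vF n ζ) (hz : z ≠ 0) :
    ∃ w, z * w = 1 ∧ w * z = 1 := by
  haveI := AA_finite (u := uF) (v := vF) (n := n) (ζ := ζ) hn0 uF_ne_zero vF_ne_zero (hζ.ne_zero hn0)
  have hinj : Function.Injective (LinearMap.mulLeft FF z) := by
    rw [injective_iff_map_eq_zero]
    intro w hw
    by_contra hne
    exact AA_mul_ne_zero hn0 hζ z w hz hne hw
  obtain ⟨w, hw⟩ := LinearMap.injective_iff_surjective.mp hinj 1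
  have hw1 : z * w = 1 := hw
  refine ⟨w, hw1, ?_⟩
  by_contra hne
  have h1 : w * z - 1 ≠ 0 := sub_ne_zero.mpr hne
  apply AA_mul_ne_zero hn0 hζ z (w * z - 1) hz h1
  rw [mul_sub, ← mul_assoc, hw1, one_mul, mul_one, sub_self]

end

end Pool.Agent.Work.MP_426531_ag
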