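import Pool.Agent.Work.MP_426531_ag.Final

set_option autoImplicit false

open scoped nonZeroDivisors

namespace Pool.Agent.Work.MP_426531_ag

section General

variable {F : Type*} [Field F] [Algebra ℂ F] {E : Type*} [Field E] [Algebra F E]
  {u v : F} {n : ℕ} {ζ : ℂ}

/-- The monomial `x ^ k * y ^ l`. -/
noncomputable def mon (u v : F) (n : ℕ) (ζ : ℂ) (p : ℕ × ℕ) : AA u v n ζ :=
  gx u v n ζ ^ p.1 * gy u v n ζ ^ p.2

theorem mon_eq_em (hn : n ≠ 0) (hu : u ≠ 0) (hv : v ≠ 0) (p : ℕ × ℕ) :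
    mon u v n ζ p = em (ux hn hu) (uy hn hv) (p.1 : ℤ) (p.2 : ℤ) := by
  simp [em, mon, ux_val, uy_val]

theorem mon_mul (hn : n ≠ 0) (hu : u ≠ 0) (hv : v ≠ 0) (hζ : ζ ≠ 0) (p p' : ℕ × ℕ) :
    mon u v n ζ p * mon u v n ζ p' = (ζ⁻¹ ^ (p.2 * p'.1)) • mon u v n ζ (p + p') := by
  have hmul := em_mul (ux hn hu : (AA u v n ζ)ˣ) (uy hn hv) ζ⁻¹ (inv_ne_zero hζ)
    (uy_ux hn hu hv hζ)
  rw [mon_eq_em hn hu hv, mon_eq_em hn hu hv, mon_eq_em hn hu hv, hmul]
  have e : ((p.2 : ℤ) * (p'.1 : ℤ)) = ((p.2 * p'.1 : ℕ) : ℤ) := by push_cast; ring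
  rw [e, zpow_natCast, Prod.fst_add, Prod.snd_add, Nat.cast_add, Nat.cast_add]

/-- The map `ℂ → E`. -/
noncomputable def cE (F E : Type*) [Field F] [Algebra ℂ F] [Field E] [Algebra F E] : ℂ →+* E :=
  (algebraMap F E).comp (algebraMap ℂ F)

theorem sigma_iter_t (D : RepData u v n ζ E) (k l : ℕ) :
    (D.σ)^[k] (D.t ^ l) = cE F E (ζ ^ (k * l)) * D.t ^ l := by
  have h1 : ∀ k : ℕ, (D.σ)^[k] D.t = cE F E (ζ ^ k) * D.t := by
    intro k
    induction k with
    | zero => simp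
    | succ k ih =>
      rw [Function.iterate_succ_apply', ih, map_mul, D.hσt]
      have h2 : D.σ (cE F E (ζ ^ k)) = cE F E (ζ ^ k) := AlgHom.commutes _ _
      rw [h2, pow_succ, map_mul]
      have h3 : cE F E ζ = algebraMap F E (algebraMap ℂ F ζ) := rfl
      rw [h3]
      ring
  have h2 : (D.σ)^[k] (D.t ^ l) = ((D.σ)^[k] D.t) ^ l := by
    induction k with
    | zero => simp
    | succ k ih => rw [Function.iterate_succ_apply', Function.iterate_succ_apply', ih, map_pow]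
  rw [h2, h1, mul_pow, ← map_pow, ← pow_mul]

theorem rho_mon (D : RepData u v n ζ E) (p : ℕ × ℕ) :
    D.rho (mon u v n ζ p) 1 = cE F E (ζ ^ (p.1 * p.2)) * (D.s ^ p.1 * D.t ^ p.2) := by
  unfold mon
  rw [map_mul, map_pow, map_pow, D.rho_gx, D.rho_gy, Module.End.mul_apply, D.yop_pow, mul_one,
    D.xop_pow, sigma_iter_t]
  ring

/-- Products of nonzero polynomial elements are nonzero. -/
theorem mul_ne_zero_of_mem_span (D : RepData u v n ζ E) (hn : n ≠ 0) (hu : u ≠ 0) (hv : v ≠ 0)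
    (hζ : ζ ≠ 0)
    (hE : ∀ P : MvPolynomial (Fin 2) ℂ, P.eval₂ (cE F E) ![D.s, D.t] = 0 → P = 0)
    (z w : AA u v n ζ) (hz : z ∈ Submodule.span ℂ (Set.range (mon u v n ζ)))
    (hw : w ∈ Submodule.span ℂ (Set.range (mon u v n ζ))) (hz0 : z ≠ 0) (hw0 : w ≠ 0) :
    z * w ≠ 0 := by
  classical
  rw [Finsupp.mem_span_range_iff_exists_finsupp] at hz hw
  obtain ⟨c, rfl⟩ := hz
  obtain ⟨d, rfl⟩ := hw
  have hc : c.support.Nonempty := by
    rw [Finsupp.support_nonempty_iff]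
    rintro rfl
    exact hz0 (by simp)
  have hd : d.support.Nonempty := by
    rw [Finsupp.support_nonempty_iff]
    rintro rfl
    exact hw0 (by simp)
  obtain ⟨a₀, ha₀, b₀, hb₀, huniq⟩ := UniqueSums.uniqueAdd_of_nonempty hc hd
  intro h0
  let κ : ℕ × ℕ → ℕ × ℕ → ℂ := fun a b =>
    c a * d b * ζ⁻¹ ^ (a.2 * b.1) * ζ ^ ((a + b).1 * (a + b).2)
  let e : ℕ × ℕ → (Fin 2 →₀ ℕ) := fun a => Finsupp.single 0 a.1 + Finsupp.single 1 a.2
  have he : Function.Injective e := by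
    intro a b hab
    have h0 := DFunLike.congr_fun hab 0
    have h1 := DFunLike.congr_fun hab 1
    simp [e] at h0 h1
    exact Prod.ext h0 h1
  let P : MvPolynomial (Fin 2) ℂ :=
    ∑ a ∈ c.support, ∑ b ∈ d.support, MvPolynomial.monomial (e (a + b)) (κ a b)
  have hprod : (c.sum fun i a => a • mon u v n ζ i) * (d.sum fun i a => a • mon u v n ζ i)
      = ∑ a ∈ c.support, ∑ b ∈ d.support,
        (c a * d b * ζ⁻¹ ^ (a.2 * b.1)) • mon u v n ζ (a + b) := by
    rw [Finsupp.sum, Finsupp.sum, Finset.sum_mul_sum]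
    refine Finset.sum_congr rfl fun a _ => Finset.sum_congr rfl fun b _ => ?_
    rw [smul_mul_smul_comm, mon_mul hn hu hv hζ, smul_smul]
  have hP : P.eval₂ (cE F E) ![D.s, D.t] = 0 := by
    have h1 := congrArg (fun z => D.rho z 1) h0
    simp only [hprod] at h1
    rw [map_zero, map_sum] at h1
    simp only [map_sum, LinearMap.sum_apply, LinearMap.zero_apply, rho_csmul, rho_mon] at h1
    rw [← h1]
    simp only [P, MvPolynomial.eval₂_sum, MvPolynomial.eval₂_monomial]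
    refine Finset.sum_congr rfl fun a _ => Finset.sum_congr rfl fun b _ => ?_
    have h2 : (e (a + b)).prod (fun i k => (![D.s, D.t] : Fin 2 → E) i ^ k)
        = D.s ^ (a + b).1 * D.t ^ (a + b).2 := by
      rw [Finsupp.prod_fintype _ _ (by intro i; simp)]
      simp [e, Fin.prod_univ_two]
    rw [h2]
    simp only [κ, map_mul, cE, RingHom.comp_apply]
    ring
  have hP0 := hE P hP
  have hcoef : MvPolynomial.coeff (e (a₀ + b₀)) P = κ a₀ b₀ := by
    simp only [P, MvPolynomial.coeff_sum, MvPolynomial.coeff_monomial]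
    rw [Finset.sum_eq_single a₀, Finset.sum_eq_single b₀]
    · simp
    · intro b hb hne
      rw [if_neg]
      intro h
      have h' := huniq ha₀ hb (he h)
      exact hne h'.2
    · intro h; exact absurd hb₀ h
    · intro a ha hne
      refine Finset.sum_eq_zero fun b hb => ?_
      rw [if_neg]
      intro h
      have h' := huniq ha hb (he h)
      exact hne h'.1
    · intro h; exact absurd ha₀ h
  rw [hP0, MvPolynomial.coeff_zero] at hcoef
  have hne : κ a₀ b₀ ≠ 0 := by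
    simp only [κ]
    exact mul_ne_zero (mul_ne_zero (mul_ne_zero (Finsupp.mem_support_iff.mp ha₀)
      (Finsupp.mem_support_iff.mp hb₀)) (pow_ne_zero _ (inv_ne_zero hζ))) (pow_ne_zero _ hζ)
  exact hne hcoef.symm

end General

end Pool.Agent.Work.MP_426531_ag
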